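import Pool.Agent.Helper81.GP.NT3

/-!
# Block H7 (helper81): pairs with a point on a long line through `s`
-/

open Finset
open scoped Classical

namespace GPG

noncomputable section

namespace H7

theorem lamV_nonneg (n : ℕ) (V : Finset ℕ) (hV : V ⊆ range (n ^ 2)) (q : ℝ) (hq : 0 < q)
    (v : ℕ) : 0 ≤ lamV n V q v := by
  unfold lamV
  split_ifs with h
  · have := (rho_bounds n v (mem_range.1 (hV h))).1
    have h2 : 0 ≤ rho n v := by linarith
    positivity
  · exact le_rfl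

theorem lamV_le (n : ℕ) (V : Finset ℕ) (hV : V ⊆ range (n ^ 2)) (q : ℝ) (hn : 3 ≤ n)
    (hq : 1 / Real.log n ≤ q) (v : ℕ) : lamV n V q v ≤ 2 * Real.log n / n := by
  have hn' : (0 : ℝ) < n := by positivity
  have hlog : 0 < Real.log n := Real.log_pos (by exact_mod_cast (by omega : 1 < n))
  have hq0 : 0 < q := lt_of_lt_of_le (by positivity) hq
  unfold lamV
  split_ifs with h
  · have h1 := (rho_bounds n v (mem_range.1 (hV h))).2
    have h0 := (rho_bounds n v (mem_range.1 (hV h))).1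
    have h2 : 1 ≤ q * Real.log n := by
      rw [div_le_iff₀ hlog] at hq
      exact hq
    rw [div_le_div_iff₀ (by positivity) hn']
    have h3 : rho n v * n ≤ 2 * n := by nlinarith
    have h4 : 2 * (n : ℝ) ≤ 2 * Real.log n * (q * n) := by
      have : 2 * Real.log n * (q * n) = 2 * n * (q * Real.log n) := by ring
      rw [this]
      nlinarith
    linarith
  · positivity

theorem det3_symm {n a b c : ℕ} (h : det3 n a b c = 0) : det3 n b c a = 0 ∧ det3 n c a b = 0 ∧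
    det3 n b a c = 0 := by
  unfold det3 at *
  refine ⟨?_, ?_, ?_⟩
  · linear_combination h
  · linear_combination h
  · linear_combination -h

theorem gls_sub_gline {n M : ℕ} {V i : Finset ℕ} (hi : i ∈ gls n V M) {a b : ℕ} (hab : a ≠ b)
    (ha : a ∈ i) (hb : b ∈ i) : i ⊆ gline n a b := by
  obtain ⟨_, _, h⟩ := gls_spec hi hab ha hb
  rcases h with h | h
  · rw [h.2]; exact inter_subset_right
  · rw [h.2.2]
    exact inter_subset_right.trans (filter_subset _ _)

/-- the point on the long line is not on the line `v s`, and has small direction from `s` -/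
theorem key {n M : ℕ} {V : Finset ℕ} {v s a S0 : ℕ}
    (hv : v < n ^ 2) (hs : s < n ^ 2) (ha : a < n ^ 2) (hav : a ≠ v) (has : a ≠ s)
    (hL : (gridLS n V M).Lng S0 v s a)
    (hj : ∃ j ∈ gls n V M, ¬ gpre n M j ∧ v ∈ j ∧ a ∈ j) :
    det3 n v s a ≠ 0 ∧ (S0 : ℝ) + 1 ≤ 2 * n / pd n s a := by
  obtain ⟨i, hi, hsi, hai, hvi, hS⟩ := hL
  change i ∈ gls n V M at hi
  obtain ⟨j, hj, hjp, hvj, haj⟩ := hj
  constructor
  · intro hdet
    have hspec := gls_spec hi has.symm hsi hai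
    have hspecj := gls_spec hj hav.symm hvj haj
    -- v on the line s a
    have hvl : det3 n s a v = 0 := (det3_symm hdet).1
    have hpd : pd n v a = pd n s a := by
      have := (line_eq has.symm hav.symm hvl (det3_self2 n s a)).2.1
      exact this
    rcases hspec.2.2 with h | h
    · apply hvi
      rw [h.2, mem_inter]
      exact ⟨hspecj.1, mem_gline.2 ⟨hv, hvl⟩⟩
    · apply hjp
      refine ⟨v, hvj, a, haj, hav.symm, ?_⟩
      rw [hpd]; exact h.1
  · have h1 : i.card ≤ (gline n s a).card := card_le_card (gls_sub_gline hi has.symm hsi hai)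
    have h2 := card_gline n s a has.symm hs ha
    have h3 : (S0 : ℝ) + 1 ≤ i.card := by exact_mod_cast hS
    have h4 : (i.card : ℝ) ≤ (gline n s a).card := by exact_mod_cast h1
    linarith

/-- counting pairs by one of the coordinates `f` -/
theorem card_pairs (n : ℕ) (v s : ℕ) (hv : v < n ^ 2) (hs : s < n ^ 2) (hsv : s ≠ v)
    (T : ℝ) (hn : 1 ≤ n)
    (F : Finset (ℕ × ℕ)) (f g : ℕ × ℕ → ℕ)
    (hinj : ∀ p ∈ F, ∀ p' ∈ F, f p = f p' → g p = g p' → p = p')
    (hF : ∀ p ∈ F, f p < n ^ 2 ∧ g p < n ^ 2 ∧ f p ≠ v ∧ g p ∈ gline n v (f p) ∧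
      (f p ≠ s → det3 n v s (f p) ≠ 0 ∧ (pd n s (f p) : ℝ) ≤ T)) :
    (F.card : ℝ) ≤ 2 * n + 2 * n * ∑ y ∈ (range (n ^ 2)).filter (fun y => det3 n v s y ≠ 0 ∧
        (pd n s y : ℝ) ≤ T), (1 : ℝ) / pd n v y := by
  set A := (range (n ^ 2)).filter (fun y => det3 n v s y ≠ 0 ∧ (pd n s y : ℝ) ≤ T) with hA
  have hsA : s ∉ A := by
    rw [hA, mem_filter]
    intro h
    exact h.2.1 (det3_self2 n v s)
  have hmaps : ∀ p ∈ F, f p ∈ insert s A := by
    intro p hp
    have h := hF p hp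
    rw [mem_insert]
    by_cases hfs : f p = s
    · exact Or.inl hfs
    · right
      rw [hA, mem_filter]
      exact ⟨mem_range.2 h.1, h.2.2.2.2 hfs⟩
  have hfib : ∀ y, y ≠ v → y < n ^ 2 → ((F.filter (fun p => f p = y)).card : ℝ) ≤
      2 * n / pd n v y := by
    intro y hyv hy
    refine le_trans ?_ (card_gline n v y hyv.symm hv hy)
    have : (F.filter (fun p => f p = y)).card ≤ (gline n v y).card := by
      apply card_le_card_of_injOn g
      · intro p hp
        rw [mem_coe, mem_filter] at hp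
        have := (hF p hp.1).2.2.2.1
        rw [hp.2] at this
        exact this
      · intro p hp p' hp' hg
        rw [mem_coe, mem_filter] at hp hp'
        exact hinj p hp.1 p' hp'.1 (by rw [hp.2, hp'.2]) hg
    exact_mod_cast this
  rw [card_eq_sum_card_fiberwise hmaps]
  push_cast
  rw [sum_insert hsA, mul_sum]
  apply add_le_add
  · refine (hfib s hsv hs).trans ?_
    have h1 : (1 : ℝ) ≤ pd n v s := by exact_mod_cast NT3.pd_pos hsv.symm
    apply div_le_self (by positivity) h1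
  · apply sum_le_sum
    intro y hy
    rw [hA, mem_filter] at hy
    have hyv : y ≠ v := by
      intro h
      exact hy.2.1 (by rw [h]; exact NT3.det3_self3 n v s)
    have := hfib y hyv (mem_range.1 hy.1)
    calc ((F.filter (fun p => f p = y)).card : ℝ) ≤ 2 * n / pd n v y := this
      _ = 2 * n * (1 / pd n v y) := by ring

end H7

open H7

/-- H7 -/
theorem H7 (η : ℝ) (hη0 : 0 < η) (hη1 : η < 1 / 10) : ∃ n0 : ℕ, ∀ n ≥ n0, ∀ M : ℕ,
    ∀ V ⊆ range (n ^ 2), ∀ q : ℝ, 1 / Real.log n ≤ q → q ≤ 1 →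
    ∀ v < (gridLS n V M).N, ∀ s < (gridLS n V M).N, s ≠ v →
      ∑ p ∈ ((gridLS n V M).Pv v).filter
          (fun p => (gridLS n V M).Lng ⌊(n : ℝ) ^ (η / 2)⌋₊ v s p.1 ∨
            (gridLS n V M).Lng ⌊(n : ℝ) ^ (η / 2)⌋₊ v s p.2),
        lamV n V q p.1 * lamV n V q p.2 ≤ (n : ℝ) ^ (-η / 20) := by
  obtain ⟨n1, hn1⟩ := NT3 η hη0 (by linarith)
  have hlim : Filter.Tendsto (fun x : ℝ => Real.log x / x ^ (η / 80)) Filter.atTop (nhds 0) :=
    (isLittleO_log_rpow_atTop (by positivity)).tendsto_div_nhds_zero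
  have ev1 : ∀ᶠ x : ℝ in Filter.atTop, Real.log x / x ^ (η / 80) ≤ 1 :=
    hlim.eventually (ge_mem_nhds one_pos)
  have hlim1 : Filter.Tendsto (fun x : ℝ => x ^ (η / 40)) Filter.atTop Filter.atTop :=
    tendsto_rpow_atTop (by positivity)
  have ev2 : ∀ᶠ x : ℝ in Filter.atTop, 32 ≤ x ^ (η / 40) := hlim1.eventually_ge_atTop _
  have ev := (tendsto_natCast_atTop_atTop (R := ℝ)).eventually
    (ev1.and (ev2.and (Filter.eventually_ge_atTop (3 : ℝ))))
  obtain ⟨n0, hn0⟩ := Filter.eventually_atTop.1 ev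
  refine ⟨max n0 n1, fun n hn M V hV q hq hq1 v hv s hs hsv => ?_⟩
  obtain ⟨e1, e2, e3⟩ := hn0 n ((le_max_left _ _).trans hn)
  have hn3 : 3 ≤ n := by exact_mod_cast e3
  have hnpos : (0 : ℝ) < n := by linarith
  have hn1' : (1 : ℝ) ≤ n := by linarith
  change v < n ^ 2 at hv
  change s < n ^ 2 at hs
  have hlog : 0 < Real.log n := Real.log_pos (by linarith)
  have hq0 : 0 < q := lt_of_lt_of_le (by positivity) hq
  set S0 : ℕ := ⌊(n : ℝ) ^ (η / 2)⌋₊ with hS0
  set T : ℝ := 2 * (n : ℝ) ^ (1 - η / 2) with hT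
  have hNT := hn1 n ((le_max_right _ _).trans hn) v hv s hs hsv.symm
  -- small direction
  have hsmall : ∀ a, a ≠ s → (S0 : ℝ) + 1 ≤ 2 * n / pd n s a → (pd n s a : ℝ) ≤ T := by
    intro a has h
    have hp : (1 : ℝ) ≤ pd n s a := by exact_mod_cast NT3.pd_pos has.symm
    have hp0 : (0 : ℝ) < pd n s a := by linarith
    have h1 : (n : ℝ) ^ (η / 2) ≤ 2 * n / pd n s a := (Nat.lt_floor_add_one _).le.trans h
    rw [le_div_iff₀ hp0] at h1
    have h2 : (n : ℝ) ^ (η / 2) * T = 2 * n := by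
      rw [hT]
      have : (n : ℝ) ^ (η / 2) * (n : ℝ) ^ (1 - η / 2) = n := by
        rw [← Real.rpow_add hnpos]
        have : η / 2 + (1 - η / 2) = 1 := by ring
        rw [this, Real.rpow_one]
      calc (n : ℝ) ^ (η / 2) * (2 * (n : ℝ) ^ (1 - η / 2))
          = 2 * ((n : ℝ) ^ (η / 2) * (n : ℝ) ^ (1 - η / 2)) := by ring
        _ = 2 * n := by rw [this]
    rw [← h2] at h1
    exact le_of_mul_le_mul_left h1 (Real.rpow_pos_of_pos hnpos _)
  set Sm : ℝ := ∑ y ∈ (range (n ^ 2)).filter (fun y => det3 n v s y ≠ 0 ∧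
        (pd n s y : ℝ) ≤ T), (1 : ℝ) / pd n v y with hSm
  set R : ℝ := (n : ℝ) ^ (1 - η / 8) with hR
  -- the pairs
  have hPv : ∀ p ∈ (gridLS n V M).Pv v, p.1 < p.2 ∧ p.2 < v ∧ p.1 < n ^ 2 ∧ p.2 < n ^ 2 ∧
      p.2 ∈ gline n v p.1 ∧ p.1 ∈ gline n v p.2 ∧
      (∃ j ∈ gls n V M, ¬ gpre n M j ∧ v ∈ j ∧ p.1 ∈ j) ∧
      (∃ j ∈ gls n V M, ¬ gpre n M j ∧ v ∈ j ∧ p.2 ∈ j) := by
    intro p hp
    unfold LS.Pv at hp
    rw [mem_filter, mem_product, mem_range, mem_range] at hp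
    obtain ⟨⟨h1, h2⟩, h3, i, hi, hip, hvi, h1i, h2i⟩ := hp
    change i ∈ gls n V M at hi
    exact ⟨h3, h2, by omega, by omega, gls_sub_gline hi (by omega) hvi h1i h2i,
      gls_sub_gline hi (by omega) hvi h2i h1i, ⟨i, hi, hip, hvi, h1i⟩, ⟨i, hi, hip, hvi, h2i⟩⟩
  have hc1 := card_pairs n v s hv hs hsv T (by omega)
    (((gridLS n V M).Pv v).filter (fun p => (gridLS n V M).Lng S0 v s p.1)) Prod.fst Prod.snd
    (by
      intro p _ p' _ h1 h2
      exact Prod.ext h1 h2)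
    (by
      intro p hp
      rw [mem_filter] at hp
      have h := hPv p hp.1
      refine ⟨h.2.2.1, h.2.2.2.1, by omega, h.2.2.2.2.1, ?_⟩
      intro hps
      have hk := key hv hs h.2.2.1 (by omega) hps hp.2 h.2.2.2.2.2.2.1
      exact ⟨hk.1, hsmall _ hps hk.2⟩)
  have hc2 := card_pairs n v s hv hs hsv T (by omega)
    (((gridLS n V M).Pv v).filter (fun p => (gridLS n V M).Lng S0 v s p.2)) Prod.snd Prod.fst
    (by
      intro p _ p' _ h1 h2
      exact Prod.ext h2 h1)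
    (by
      intro p hp
      rw [mem_filter] at hp
      have h := hPv p hp.1
      refine ⟨h.2.2.2.1, h.2.2.1, by omega, h.2.2.2.2.2.1, ?_⟩
      intro hps
      have hk := key hv hs h.2.2.2.1 (by omega) hps hp.2 h.2.2.2.2.2.2.2
      exact ⟨hk.1, hsmall _ hps hk.2⟩)
  set F := ((gridLS n V M).Pv v).filter
          (fun p => (gridLS n V M).Lng S0 v s p.1 ∨ (gridLS n V M).Lng S0 v s p.2) with hF
  have hcard : (F.card : ℝ) ≤ 4 * n + 4 * n * Sm := by
    have h1 : F.card ≤ (((gridLS n V M).Pv v).filter (fun p => (gridLS n V M).Lng S0 v s p.1)).card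
        + (((gridLS n V M).Pv v).filter (fun p => (gridLS n V M).Lng S0 v s p.2)).card := by
      rw [hF, filter_or]
      exact card_union_le _ _
    have h2 : (F.card : ℝ) ≤
        ((((gridLS n V M).Pv v).filter (fun p => (gridLS n V M).Lng S0 v s p.1)).card : ℝ)
        + ((((gridLS n V M).Pv v).filter (fun p => (gridLS n V M).Lng S0 v s p.2)).card : ℝ) := by
      exact_mod_cast h1
    linarith
  have hsum : ∑ p ∈ F, lamV n V q p.1 * lamV n V q p.2 ≤
      (F.card : ℝ) * (2 * Real.log n / n) ^ 2 := by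
    rw [← nsmul_eq_mul, ← sum_const]
    apply sum_le_sum
    intro p _
    have h1 := lamV_le n V hV q hn3 hq p.1
    have h2 := lamV_le n V hV q hn3 hq p.2
    have h3 := lamV_nonneg n V hV q hq0 p.1
    have h4 := lamV_nonneg n V hV q hq0 p.2
    rw [sq]
    exact mul_le_mul h1 h2 h4 (h3.trans h1)
  -- numerics
  have hR1 : 1 ≤ R := Real.one_le_rpow hn1' (by linarith)
  have hlog' : Real.log n ≤ (n : ℝ) ^ (η / 80) := by
    have hp : (0 : ℝ) < (n : ℝ) ^ (η / 80) := Real.rpow_pos_of_pos hnpos _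
    rw [div_le_one hp] at e1
    exact e1
  have hlog2 : Real.log n ^ 2 ≤ (n : ℝ) ^ (η / 40) := by
    calc Real.log n ^ 2 ≤ ((n : ℝ) ^ (η / 80)) ^ 2 := pow_le_pow_left₀ hlog.le hlog' 2
      _ = (n : ℝ) ^ (η / 40) := by
        rw [← Real.rpow_natCast, ← Real.rpow_mul hnpos.le]
        congr 1; push_cast; ring
  have hRn : R / n = (n : ℝ) ^ (-(η / 8)) := by
    rw [hR, div_eq_iff hnpos.ne']
    nth_rewrite 3 [← Real.rpow_one (n : ℝ)]
    rw [← Real.rpow_add hnpos]
    congr 1; ring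
  have hfin : (4 * (n : ℝ) + 4 * n * R) * (2 * Real.log n / n) ^ 2 ≤ (n : ℝ) ^ (-η / 20) := by
    have h1 : (4 * (n : ℝ) + 4 * n * R) * (2 * Real.log n / n) ^ 2 ≤
        32 * (Real.log n ^ 2 * (R / n)) := by
      have h2 : (4 * (n : ℝ) + 4 * n * R) * (2 * Real.log n / n) ^ 2 =
          16 * (Real.log n ^ 2 * ((1 + R) / n)) := by
        field_simp
        ring
      rw [h2]
      have h3 : (1 + R) / n ≤ 2 * (R / n) := by
        rw [div_le_iff₀ hnpos]
        have : 2 * (R / n) * n = 2 * R := by field_simp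
        rw [this]; linarith
      have h4 : 0 ≤ Real.log n ^ 2 := sq_nonneg _
      nlinarith [mul_le_mul_of_nonneg_left h3 h4]
    refine h1.trans ?_
    rw [hRn]
    have h5 : 0 ≤ (n : ℝ) ^ (-(η / 8)) := (Real.rpow_pos_of_pos hnpos _).le
    calc 32 * (Real.log n ^ 2 * (n : ℝ) ^ (-(η / 8)))
        ≤ (n : ℝ) ^ (η / 40) * ((n : ℝ) ^ (η / 40) * (n : ℝ) ^ (-(η / 8))) := by gcongr
      _ = (n : ℝ) ^ (η / 40 + (η / 40 + -(η / 8))) := by
          rw [← Real.rpow_add hnpos, ← Real.rpow_add hnpos]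
      _ ≤ (n : ℝ) ^ (-η / 20) := by
          apply Real.rpow_le_rpow_of_exponent_le hn1'
          linarith
  calc ∑ p ∈ F, lamV n V q p.1 * lamV n V q p.2
      ≤ (F.card : ℝ) * (2 * Real.log n / n) ^ 2 := hsum
    _ ≤ (4 * (n : ℝ) + 4 * n * R) * (2 * Real.log n / n) ^ 2 := by
        apply mul_le_mul_of_nonneg_right _ (sq_nonneg _)
        have : 4 * (n : ℝ) * Sm ≤ 4 * n * R := mul_le_mul_of_nonneg_left hNT (by positivity)
        linarith
    _ ≤ (n : ℝ) ^ (-η / 20) := hfin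

end

end GPG
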