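import Pool.Agent.Helper31.GP.G2
import Pool.Agent.Helper31.GP.G2b
import Pool.Agent.Helper31.GP.G2c
import Pool.Agent.Helper9.GP.SL
import Pool.Agent.Helper7.GPC.Div

/-!
# Block NT3 (helper81): points seen from `s` in a direction of small norm, weighted by the
inverse norm of the direction from `v`
-/

open Finset
open scoped Classical

namespace GPG

noncomputable section

namespace NT3

theorem det3_self3 (n v s : ℕ) : det3 n v s v = 0 := by unfold det3; ring

theorem det3_swap (n v s y : ℕ) : det3 n v y s = - det3 n v s y := by unfold det3; ring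

theorem gg_dvd_DD (n a b : ℕ) : gg n a b ∣ DD n a b := by
  unfold gg DD
  rcases max_cases (px n b - px n a).natAbs (py n b - py n a).natAbs with h | h
  · rw [h.1]; exact Nat.gcd_dvd_left _ _
  · rw [h.1]; exact Nat.gcd_dvd_right _ _

theorem DD_pos {n a b : ℕ} (h : a ≠ b) : 0 < DD n a b := by
  rw [Nat.pos_iff_ne_zero]
  intro h0
  unfold DD at h0
  have h1 : (px n b - px n a).natAbs = 0 := by
    have := le_max_left (px n b - px n a).natAbs (py n b - py n a).natAbs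
    omega
  have h2 : (py n b - py n a).natAbs = 0 := by
    have := le_max_right (px n b - px n a).natAbs (py n b - py n a).natAbs
    omega
  rw [Int.natAbs_eq_zero] at h1 h2
  exact h (px_py_inj (by linarith) (by linarith))

theorem pd_pos {n a b : ℕ} (h : a ≠ b) : 1 ≤ pd n a b := by
  unfold pd
  exact Nat.div_pos (Nat.le_of_dvd (DD_pos h) (gg_dvd_DD n a b)) (gg_pos h)

/-- the primitive direction from `a` to `b` -/
def prim (n a b : ℕ) : ℤ × ℤ :=
  ((px n b - px n a) / (gg n a b : ℤ), (py n b - py n a) / (gg n a b : ℤ))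

theorem prim_spec (n a b : ℕ) : px n b - px n a = (prim n a b).1 * gg n a b ∧
    py n b - py n a = (prim n a b).2 * gg n a b := by
  unfold prim gg
  exact ⟨(Int.ediv_mul_cancel (Int.gcd_dvd_left _ _)).symm,
    (Int.ediv_mul_cancel (Int.gcd_dvd_right _ _)).symm⟩

theorem prim_norm {n a b : ℕ} (h : a ≠ b) :
    max (prim n a b).1.natAbs (prim n a b).2.natAbs = pd n a b := by
  have hs := prim_spec n a b
  have hg := gg_pos (n := n) h
  unfold pd DD
  rw [hs.1, hs.2, Int.natAbs_mul, Int.natAbs_mul, Int.natAbs_natCast, Nat.mul_max_mul_right,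
    Nat.mul_div_cancel _ hg]

theorem det3_of_prim {n v y y' : ℕ} (h : prim n v y = prim n v y') : det3 n v y y' = 0 := by
  have hs := prim_spec n v y
  have hs' := prim_spec n v y'
  unfold det3
  rw [hs.1, hs.2, hs'.1, hs'.2, h]
  ring

theorem gline_of_prim {n v y y' : ℕ} (hy : y ≠ v) (hy' : y' ≠ v) (hv : v < n ^ 2)
    (hyn' : y' < n ^ 2) (h : prim n v y = prim n v y') :
    gline n v y' = gline n v y :=
  gline_eq hy.symm hy'.symm (mem_gline.2 ⟨hv, det3_self1 n v y⟩)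
    (mem_gline.2 ⟨hyn', det3_of_prim h⟩)

/-- the vectors of sup norm `k` -/
def bdry (k : ℕ) : Finset (ℤ × ℤ) :=
  (Icc (-(k : ℤ)) k ×ˢ {-(k : ℤ), (k : ℤ)}) ∪ ({-(k : ℤ), (k : ℤ)} ×ˢ Icc (-(k : ℤ)) k)

theorem card_bdry (k : ℕ) (hk : 1 ≤ k) : (bdry k).card ≤ 12 * k := by
  have h1 : (Icc (-(k : ℤ)) k).card = 2 * k + 1 := by
    rw [Int.card_Icc]; omega
  have h2 : ({-(k : ℤ), (k : ℤ)} : Finset ℤ).card ≤ 2 := Finset.card_le_two
  calc (bdry k).card ≤ _ := Finset.card_union_le _ _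
    _ = (2 * k + 1) * ({-(k : ℤ), (k : ℤ)} : Finset ℤ).card +
        ({-(k : ℤ), (k : ℤ)} : Finset ℤ).card * (2 * k + 1) := by
      rw [Finset.card_product, Finset.card_product, h1]
    _ ≤ (2 * k + 1) * 2 + 2 * (2 * k + 1) := by gcongr
    _ ≤ 12 * k := by omega

theorem mem_bdry {k : ℕ} {x : ℤ × ℤ} (h : max x.1.natAbs x.2.natAbs = k) : x ∈ bdry k := by
  unfold bdry
  rw [Finset.mem_union, Finset.mem_product, Finset.mem_product]
  simp only [Finset.mem_Icc, Finset.mem_insert, Finset.mem_singleton]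
  rcases max_cases x.1.natAbs x.2.natAbs with h1 | h1
  · right; omega
  · left; omega

/-- the number of lines through `v` with direction of norm `k` -/
theorem card_lines (n v k : ℕ) (hk : 1 ≤ k) (hv : v < n ^ 2) (Y : Finset ℕ)
    (hY : ∀ y ∈ Y, y < n ^ 2 ∧ y ≠ v ∧ pd n v y = k) :
    (Y.image (fun y => gline n v y)).card ≤ 12 * k := by
  have h1 : (Y.image (fun y => gline n v y)).card ≤ (Y.image (fun y => prim n v y)).card := by
    -- choose a preimage
    have hch : ∀ x ∈ Y.image (fun y => prim n v y), ∃ y ∈ Y, prim n v y = x := by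
      intro x hx
      rw [Finset.mem_image] at hx
      exact hx
    let f : ℤ × ℤ → Finset ℕ := fun x =>
      if h : ∃ y ∈ Y, prim n v y = x then gline n v h.choose else ∅
    have : Y.image (fun y => gline n v y) ⊆ (Y.image (fun y => prim n v y)).image f := by
      intro l hl
      rw [Finset.mem_image] at hl
      obtain ⟨y, hy, rfl⟩ := hl
      rw [Finset.mem_image]
      refine ⟨prim n v y, Finset.mem_image_of_mem _ hy, ?_⟩
      have hex : ∃ y' ∈ Y, prim n v y' = prim n v y := ⟨y, hy, rfl⟩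
      simp only [f, dif_pos hex]
      have hsp := hex.choose_spec
      exact gline_of_prim (hY y hy).2.1 (hY _ hsp.1).2.1 hv (hY _ hsp.1).1 hsp.2.symm
    exact (Finset.card_le_card this).trans Finset.card_image_le
  refine h1.trans (le_trans (Finset.card_le_card ?_) (card_bdry k hk))
  intro x hx
  rw [Finset.mem_image] at hx
  obtain ⟨y, hy, rfl⟩ := hx
  apply mem_bdry
  rw [prim_norm (hY y hy).2.1.symm, (hY y hy).2.2]

/-- the points of direction norm `k` from `v`, not on the line `v s`, of direction norm at most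
`P0` from `s` -/
theorem card_k (n v s k : ℕ) (hn : 2 ≤ n) (hk : 1 ≤ k) (hv : v < n ^ 2) (hs : s < n ^ 2)
    (P0 B : ℝ) (hP0 : 1 ≤ P0)
    (hB : ∀ D : ℕ, 1 ≤ D → D ≤ 2 * n ^ 2 → ((Nat.divisors D).card : ℝ) ≤ B) (Y : Finset ℕ)
    (hY : ∀ y ∈ Y, y < n ^ 2 ∧ det3 n v s y ≠ 0 ∧ pd n v y = k ∧ (pd n s y : ℝ) ≤ P0) :
    (Y.card : ℝ) ≤ 12 * k * (B * (2 + 4 * P0 / k)) := by
  have hk' : (0 : ℝ) < k := by exact_mod_cast hk
  have hB0 : 0 ≤ B := le_trans (Nat.cast_nonneg _) (hB 1 le_rfl (by nlinarith))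
  have hne : ∀ y ∈ Y, y ≠ v := by
    intro y hy hyv
    exact (hY y hy).2.1 (by rw [hyv]; exact det3_self3 n v s)
  rw [Finset.card_eq_sum_card_image (fun y => gline n v y) Y]
  push_cast
  have h1 : ∀ l ∈ Y.image (fun y => gline n v y),
      ((Y.filter (fun y => gline n v y = l)).card : ℝ) ≤ B * (2 + 4 * P0 / k) := by
    intro l hl
    rw [Finset.mem_image] at hl
    obtain ⟨y0, hy0, rfl⟩ := hl
    have hy := hY y0 hy0
    obtain ⟨D, hD1, hD2, -, -, h3⟩ := sum_line n v y0 s hn (hne y0 hy0).symm hv hy.1 hs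
      (by rw [det3_swap]; exact neg_ne_zero.2 hy.2.1)
    have h4 := h3 P0 hP0
    have hsub : Y.filter (fun y => gline n v y = gline n v y0) ⊆
        (gline n v y0).filter (fun y => (pd n s y : ℝ) ≤ P0) := by
      intro y hyf
      rw [Finset.mem_filter] at hyf ⊢
      refine ⟨?_, (hY y hyf.1).2.2.2⟩
      rw [← hyf.2]
      exact mem_gline.2 ⟨(hY y hyf.1).1, det3_self2 n v y⟩
    calc ((Y.filter (fun y => gline n v y = gline n v y0)).card : ℝ)
        ≤ (((gline n v y0).filter (fun y => (pd n s y : ℝ) ≤ P0)).card : ℝ) := by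
          exact_mod_cast Finset.card_le_card hsub
      _ ≤ (Nat.divisors D).card * (2 + 4 * P0 / pd n v y0) := h4
      _ ≤ B * (2 + 4 * P0 / k) := by
          rw [hy.2.2.1]
          apply mul_le_mul_of_nonneg_right (hB D hD1 hD2)
          positivity
  calc ∑ l ∈ Y.image (fun y => gline n v y), ((Y.filter (fun y => gline n v y = l)).card : ℝ)
      ≤ ∑ l ∈ Y.image (fun y => gline n v y), B * (2 + 4 * P0 / k) := Finset.sum_le_sum h1
    _ = ((Y.image (fun y => gline n v y)).card : ℝ) * (B * (2 + 4 * P0 / k)) := by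
        rw [Finset.sum_const, nsmul_eq_mul]
    _ ≤ 12 * k * (B * (2 + 4 * P0 / k)) := by
        have h5 : ((Y.image (fun y => gline n v y)).card : ℝ) ≤ 12 * k := by
          exact_mod_cast card_lines n v k hk hv Y
            (fun y hy => ⟨(hY y hy).1, hne y hy, (hY y hy).2.2.1⟩)
        apply mul_le_mul_of_nonneg_right h5
        positivity

theorem harmonic_le' (m : ℕ) : ∑ k ∈ Icc 1 m, (1 : ℝ) / k ≤ 1 + Real.log m := by
  have h := harmonic_le_one_add_log m
  rw [harmonic_eq_sum_Icc] at h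
  push_cast at h
  simpa [one_div] using h

/-- the part of the sum with `pd n v y ≤ K` -/
theorem small_part (n v s m : ℕ) (hn : 2 ≤ n) (hv : v < n ^ 2) (hs : s < n ^ 2)
    (P0 B : ℝ) (hP0 : 1 ≤ P0)
    (hB : ∀ D : ℕ, 1 ≤ D → D ≤ 2 * n ^ 2 → ((Nat.divisors D).card : ℝ) ≤ B) (Y : Finset ℕ)
    (hY : ∀ y ∈ Y, y < n ^ 2 ∧ det3 n v s y ≠ 0 ∧ pd n v y ≤ m ∧ (pd n s y : ℝ) ≤ P0) :
    ∑ y ∈ Y, (1 : ℝ) / pd n v y ≤ 12 * B * (2 * m + 4 * P0 * (1 + Real.log m)) := by
  have hB0 : 0 ≤ B := le_trans (Nat.cast_nonneg _) (hB 1 le_rfl (by nlinarith))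
  have hne : ∀ y ∈ Y, y ≠ v := by
    intro y hy hyv
    exact (hY y hy).2.1 (by rw [hyv]; exact det3_self3 n v s)
  have hmaps : ∀ y ∈ Y, pd n v y ∈ Icc 1 m := by
    intro y hy
    rw [Finset.mem_Icc]
    exact ⟨pd_pos (hne y hy).symm, (hY y hy).2.2.1⟩
  rw [← Finset.sum_fiberwise_of_maps_to hmaps]
  have h1 : ∀ k ∈ Icc 1 m, ∑ y ∈ Y.filter (fun y => pd n v y = k), (1 : ℝ) / pd n v y ≤
      12 * B * (2 + 4 * P0 * (1 / k)) := by
    intro k hk
    rw [Finset.mem_Icc] at hk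
    have hk' : (0 : ℝ) < k := by exact_mod_cast hk.1
    have h2 : ∑ y ∈ Y.filter (fun y => pd n v y = k), (1 : ℝ) / pd n v y
        = ((Y.filter (fun y => pd n v y = k)).card : ℝ) * (1 / k) := by
      rw [← nsmul_eq_mul, ← Finset.sum_const]
      apply Finset.sum_congr rfl
      intro y hy
      rw [Finset.mem_filter] at hy
      rw [hy.2]
    rw [h2]
    have h3 := card_k n v s k hn hk.1 hv hs P0 B hP0 hB (Y.filter (fun y => pd n v y = k))
      (by
        intro y hy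
        rw [Finset.mem_filter] at hy
        have := hY y hy.1
        exact ⟨this.1, this.2.1, hy.2, this.2.2.2⟩)
    calc ((Y.filter (fun y => pd n v y = k)).card : ℝ) * (1 / k)
        ≤ (12 * k * (B * (2 + 4 * P0 / k))) * (1 / k) := by
          apply mul_le_mul_of_nonneg_right h3; positivity
      _ = 12 * B * (2 + 4 * P0 * (1 / k)) := by field_simp
  calc ∑ k ∈ Icc 1 m, ∑ y ∈ Y.filter (fun y => pd n v y = k), (1 : ℝ) / pd n v y
      ≤ ∑ k ∈ Icc 1 m, 12 * B * (2 + 4 * P0 * (1 / (k : ℝ))) := Finset.sum_le_sum h1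
    _ = 12 * B * (2 * m + 4 * P0 * ∑ k ∈ Icc 1 m, (1 : ℝ) / k) := by
        have hc : ((m + 1 - 1 : ℕ) : ℝ) = m := by simp
        rw [← Finset.mul_sum, Finset.sum_add_distrib, ← Finset.mul_sum, Finset.sum_const,
          Nat.card_Icc, nsmul_eq_mul, hc]
        ring
    _ ≤ 12 * B * (2 * m + 4 * P0 * (1 + Real.log m)) := by
        have := harmonic_le' m
        gcongr

/-- the number of points of direction norm at most `P0` from `s` -/
theorem card_small (n s : ℕ) (hs : s < n ^ 2) (P0 : ℝ) (hP0 : 0 ≤ P0) (Y : Finset ℕ)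
    (hY : ∀ y ∈ Y, y < n ^ 2 ∧ y ≠ s ∧ (pd n s y : ℝ) ≤ P0) :
    (Y.card : ℝ) ≤ 16 * n * P0 := by
  have hmaps : ∀ y ∈ Y, pd n s y ∈ Icc 1 ⌊P0⌋₊ := by
    intro y hy
    rw [Finset.mem_Icc]
    exact ⟨pd_pos (hY y hy).2.1.symm, Nat.le_floor (hY y hy).2.2⟩
  rw [Finset.card_eq_sum_card_fiberwise hmaps]
  push_cast
  calc ∑ k ∈ Icc 1 ⌊P0⌋₊, ((Y.filter (fun y => pd n s y = k)).card : ℝ)
      ≤ ∑ k ∈ Icc 1 ⌊P0⌋₊, (16 * n : ℝ) := by
        apply Finset.sum_le_sum
        intro k hk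
        rw [Finset.mem_Icc] at hk
        refine le_trans ?_ (card_dir n s k hk.1 hs)
        have : Y.filter (fun y => pd n s y = k) ⊆
            (range (n ^ 2)).filter (fun z => z ≠ s ∧ pd n s z = k) := by
          intro y hy
          rw [Finset.mem_filter] at hy ⊢
          exact ⟨Finset.mem_range.2 (hY y hy.1).1, (hY y hy.1).2.1, hy.2⟩
        exact_mod_cast Finset.card_le_card this
    _ = 16 * n * (⌊P0⌋₊ : ℝ) := by
        have hc : ((⌊P0⌋₊ + 1 - 1 : ℕ) : ℝ) = ⌊P0⌋₊ := by simp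
        rw [Finset.sum_const, Nat.card_Icc, nsmul_eq_mul, hc]
        ring
    _ ≤ 16 * n * P0 := by
        have := Nat.floor_le hP0
        gcongr

end NT3

open NT3

theorem NT3 (η : ℝ) (hη : 0 < η) (hη1 : η < 1) : ∃ n0 : ℕ, ∀ n ≥ n0, ∀ v < n ^ 2,
    ∀ s < n ^ 2, v ≠ s →
    ∑ y ∈ (range (n ^ 2)).filter (fun y => det3 n v s y ≠ 0 ∧
        (pd n s y : ℝ) ≤ 2 * (n : ℝ) ^ (1 - η / 2)), (1 : ℝ) / pd n v y ≤
      (n : ℝ) ^ (1 - η / 8) := by
  obtain ⟨C, hC1, hC⟩ := Pool.Agent.Helper7.GPC.card_divisors_le (ε := η / 32) (by positivity)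
  -- asymptotic inequalities
  have hlim : Filter.Tendsto (fun x : ℝ => Real.log x / x ^ (η / 16)) Filter.atTop (nhds 0) :=
    (isLittleO_log_rpow_atTop (by positivity)).tendsto_div_nhds_zero
  have hlim1 : Filter.Tendsto (fun x : ℝ => x ^ (η / 16)) Filter.atTop Filter.atTop :=
    tendsto_rpow_atTop (by positivity)
  have ev1 : ∀ᶠ x : ℝ in Filter.atTop, 4800 * C * (Real.log x / x ^ (η / 16)) ≤ 1 := by
    have h := (hlim.const_mul (4800 * C))
    rw [mul_zero] at h
    exact (h.eventually (ge_mem_nhds one_pos)).mono fun x hx => hx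
  have ev2 : ∀ᶠ x : ℝ in Filter.atTop, 4800 * C + 100 ≤ x ^ (η / 16) :=
    hlim1.eventually_ge_atTop _
  have ev3 : ∀ᶠ x : ℝ in Filter.atTop, (3 : ℝ) ≤ x := Filter.eventually_ge_atTop 3
  have ev := (tendsto_natCast_atTop_atTop (R := ℝ)).eventually (ev1.and (ev2.and ev3))
  obtain ⟨n0, hn0⟩ := Filter.eventually_atTop.1 ev
  refine ⟨n0, fun n hn v hv s hs hvs => ?_⟩
  obtain ⟨e1, e2, e3⟩ := hn0 n hn
  have hn3 : 3 ≤ n := by exact_mod_cast e3
  have hnpos : (0 : ℝ) < n := by linarith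
  have hn1 : (1 : ℝ) ≤ n := by linarith
  set P0 : ℝ := 2 * (n : ℝ) ^ (1 - η / 2) with hP0
  set K : ℝ := (n : ℝ) ^ (1 - η / 4) with hK
  set B : ℝ := C * (2 * (n : ℝ) ^ 2) ^ (η / 32) with hB
  have hKpos : 0 < K := Real.rpow_pos_of_pos hnpos _
  have hP0pos : 0 < P0 := by
    have := Real.rpow_pos_of_pos hnpos (1 - η / 2)
    positivity
  have hP01 : 1 ≤ P0 := by
    have : 1 ≤ (n : ℝ) ^ (1 - η / 2) := Real.one_le_rpow hn1 (by linarith)
    linarith
  have hPK : P0 ≤ 2 * K := by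
    have : (n : ℝ) ^ (1 - η / 2) ≤ (n : ℝ) ^ (1 - η / 4) :=
      Real.rpow_le_rpow_of_exponent_le hn1 (by linarith)
    linarith
  have hKn : K ≤ n := by
    calc K ≤ (n : ℝ) ^ (1 : ℝ) := Real.rpow_le_rpow_of_exponent_le hn1 (by linarith)
      _ = n := Real.rpow_one _
  have hBd : ∀ D : ℕ, 1 ≤ D → D ≤ 2 * n ^ 2 → ((Nat.divisors D).card : ℝ) ≤ B := by
    intro D h1 h2
    refine (hC D (by omega)).trans ?_
    have : (D : ℝ) ≤ 2 * (n : ℝ) ^ 2 := by exact_mod_cast h2
    rw [hB]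
    gcongr
  set S := (range (n ^ 2)).filter (fun y => det3 n v s y ≠ 0 ∧ (pd n s y : ℝ) ≤ P0) with hS
  have hmem : ∀ y ∈ S, y < n ^ 2 ∧ det3 n v s y ≠ 0 ∧ (pd n s y : ℝ) ≤ P0 := by
    intro y hy
    rw [hS, Finset.mem_filter] at hy
    exact ⟨Finset.mem_range.1 hy.1, hy.2⟩
  have hnes : ∀ y ∈ S, y ≠ s := by
    intro y hy hys
    exact (hmem y hy).2.1 (by rw [hys]; exact det3_self2 n v s)
  rw [← Finset.sum_filter_add_sum_filter_not S (fun y => pd n v y ≤ ⌊K⌋₊)]
  -- small part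
  have hsmall := small_part n v s ⌊K⌋₊ (by omega) hv hs P0 B hP01 hBd
    (S.filter (fun y => pd n v y ≤ ⌊K⌋₊)) (by
      intro y hy
      rw [Finset.mem_filter] at hy
      have := hmem y hy.1
      exact ⟨this.1, this.2.1, hy.2, this.2.2⟩)
  -- large part
  have hlarge : ∑ y ∈ S.filter (fun y => ¬ pd n v y ≤ ⌊K⌋₊), (1 : ℝ) / pd n v y ≤
      16 * n * P0 * (1 / K) := by
    have hc := card_small n s hs P0 hP0pos.le (S.filter (fun y => ¬ pd n v y ≤ ⌊K⌋₊)) (by
      intro y hy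
      rw [Finset.mem_filter] at hy
      exact ⟨(hmem y hy.1).1, hnes y hy.1, (hmem y hy.1).2.2⟩)
    calc ∑ y ∈ S.filter (fun y => ¬ pd n v y ≤ ⌊K⌋₊), (1 : ℝ) / pd n v y
        ≤ ∑ y ∈ S.filter (fun y => ¬ pd n v y ≤ ⌊K⌋₊), 1 / K := by
          apply Finset.sum_le_sum
          intro y hy
          rw [Finset.mem_filter, not_le] at hy
          have : K < pd n v y := (Nat.floor_lt hKpos.le).1 hy.2
          exact one_div_le_one_div_of_le hKpos this.le
      _ = ((S.filter (fun y => ¬ pd n v y ≤ ⌊K⌋₊)).card : ℝ) * (1 / K) := by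
          rw [Finset.sum_const, nsmul_eq_mul]
      _ ≤ 16 * n * P0 * (1 / K) := by
          apply mul_le_mul_of_nonneg_right hc; positivity
  -- numerics
  set x : ℝ := (n : ℝ) ^ (η / 16) with hx
  have hxpos : 0 < x := Real.rpow_pos_of_pos hnpos _
  set R : ℝ := (n : ℝ) ^ (1 - η / 8) with hR
  have hRpos : 0 < R := Real.rpow_pos_of_pos hnpos _
  have hlogn : 0 ≤ Real.log n := Real.log_nonneg hn1
  have hKx : K * x * x = R := by
    rw [hK, hx, hR, ← Real.rpow_add hnpos, ← Real.rpow_add hnpos]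
    congr 1; ring
  have hBx : B ≤ 2 * C * x := by
    rw [hB]
    have h1 : (2 * (n : ℝ) ^ 2) ^ (η / 32) = 2 ^ (η / 32) * x := by
      rw [Real.mul_rpow (by norm_num) (by positivity), hx, ← Real.rpow_natCast,
        ← Real.rpow_mul hnpos.le]
      congr 2
      push_cast
      ring
    have h2 : (2 : ℝ) ^ (η / 32) ≤ 2 := by
      calc (2 : ℝ) ^ (η / 32) ≤ 2 ^ (1 : ℝ) :=
            Real.rpow_le_rpow_of_exponent_le (by norm_num) (by linarith)
        _ = 2 := Real.rpow_one _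
    rw [h1]
    have : 0 ≤ C := by linarith
    nlinarith [mul_nonneg this hxpos.le]
  have hB0 : 0 ≤ B := by rw [hB]; positivity
  have hfl : (⌊K⌋₊ : ℝ) ≤ K := Nat.floor_le hKpos.le
  have hlogK : Real.log ⌊K⌋₊ ≤ Real.log n := by
    rcases Nat.eq_zero_or_pos ⌊K⌋₊ with h0 | h0
    · rw [h0]; simpa using hlogn
    · exact Real.log_le_log (by exact_mod_cast h0) (hfl.trans hKn)
  have hlogx : 4800 * C * Real.log n ≤ x := by
    have : Real.log n / x * x = Real.log n := by field_simp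
    have h1 := mul_le_mul_of_nonneg_right e1 hxpos.le
    calc 4800 * C * Real.log n = 4800 * C * (Real.log n / x * x) := by rw [this]
      _ = 4800 * C * (Real.log n / x) * x := by ring
      _ ≤ 1 * x := h1
      _ = x := one_mul x
  have hS1 : 12 * B * (2 * (⌊K⌋₊ : ℝ) + 4 * P0 * (1 + Real.log ⌊K⌋₊)) ≤ R / 4 + R / 4 := by
    have h1 : 2 * (⌊K⌋₊ : ℝ) + 4 * P0 * (1 + Real.log ⌊K⌋₊) ≤ 10 * K * (1 + Real.log n) := by
      have h2 : 4 * P0 * (1 + Real.log ⌊K⌋₊) ≤ 8 * K * (1 + Real.log n) := by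
        calc 4 * P0 * (1 + Real.log ⌊K⌋₊) ≤ 4 * P0 * (1 + Real.log n) := by gcongr
          _ ≤ 4 * (2 * K) * (1 + Real.log n) := by gcongr
          _ = 8 * K * (1 + Real.log n) := by ring
      nlinarith [mul_nonneg hKpos.le hlogn]
    calc 12 * B * (2 * (⌊K⌋₊ : ℝ) + 4 * P0 * (1 + Real.log ⌊K⌋₊))
        ≤ 12 * (2 * C * x) * (10 * K * (1 + Real.log n)) := by gcongr
      _ = (K * x) * (240 * C + 240 * C * Real.log n) := by ring
      _ ≤ (K * x) * (x / 4 + x / 4) := by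
          have hp : 0 ≤ K * x := by positivity
          apply mul_le_mul_of_nonneg_left _ hp
          nlinarith
      _ = R / 4 + R / 4 := by rw [← hKx]; ring
  have hS2 : 16 * n * P0 * (1 / K) ≤ R / 2 := by
    have h1 : 16 * n * P0 * (1 / K) = 32 * K := by
      rw [mul_one_div, div_eq_iff hKpos.ne', hP0, hK]
      have : (n : ℝ) * (n : ℝ) ^ (1 - η / 2) = (n : ℝ) ^ (1 - η / 4) * (n : ℝ) ^ (1 - η / 4) := by
        nth_rewrite 1 [← Real.rpow_one (n : ℝ)]
        rw [← Real.rpow_add hnpos, ← Real.rpow_add hnpos]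
        congr 1; ring
      calc 16 * (n : ℝ) * (2 * (n : ℝ) ^ (1 - η / 2)) = 32 * ((n : ℝ) * (n : ℝ) ^ (1 - η / 2)) := by
            ring
        _ = _ := by rw [this]; ring
    rw [h1, ← hKx]
    have hx100 : 100 ≤ x := by nlinarith
    nlinarith [mul_pos hKpos hxpos]
  linarith

end

end GPG
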